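import Mathlib

set_option autoImplicit false

namespace Pool.Agent.Results.MP_801f88_co.CubicLogGrowth

open Finset

/-- The `(0,1)`-matrices `A` of order `c ^ 2` with `A * A = J` (over the integers). -/
def Sol (c : ℕ) : Type :=
  {A : Matrix (Fin (c ^ 2)) (Fin (c ^ 2)) ℤ //
    (∀ i j, A i j = 0 ∨ A i j = 1) ∧ A * A = Matrix.of (fun _ _ => (1 : ℤ))}

/-- Equivalence: `A' = Pᵀ A P` for a permutation matrix `P`, that is
`A' i j = A (σ i) (σ j)` for a permutation `σ`. -/
def solSetoid (c : ℕ) : Setoid (Sol c) where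
  r A B := ∃ σ : Equiv.Perm (Fin (c ^ 2)), ∀ i j, B.1 i j = A.1 (σ i) (σ j)
  iseqv :=
    { refl := fun A => ⟨1, fun i j => rfl⟩
      symm := by
        rintro A B ⟨σ, h⟩
        refine ⟨σ⁻¹, fun i j => ?_⟩
        rw [h]
        simp
      trans := by
        rintro A B C ⟨σ, h⟩ ⟨τ, h'⟩
        refine ⟨σ * τ, fun i j => ?_⟩
        rw [h', h]
        simp }

/-- `N(c)`: the number of equivalence classes. -/
noncomputable def N (c : ℕ) : ℕ := Nat.card (Quotient (solSetoid c))

/-! ### Finiteness and the upper bound -/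

theorem rowSum {c : ℕ} (A : Sol c) (i : Fin (c ^ 2)) : ∑ k, A.1 i k = (c : ℤ) := by
  obtain ⟨A, h01, hA⟩ := A
  have key : ∀ i j, ∑ k, A i k = ∑ k, A k j := by
    intro i j
    have h1 : A * (A * A) = (A * A) * A := (Matrix.mul_assoc A A A).symm
    rw [hA] at h1
    have h2 := congrFun (congrFun h1 i) j
    simpa [Matrix.mul_apply] using h2
  have hsq : (∑ k, A i k) * (∑ k, A i k) = (c : ℤ) ^ 2 := by
    have h3 : ∑ j, (A * A) i j = (c : ℤ) ^ 2 := by
      rw [hA]; simp
    rw [← h3]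
    simp only [Matrix.mul_apply]
    rw [Finset.sum_comm, Finset.sum_mul]
    refine Finset.sum_congr rfl (fun k _ => ?_)
    rw [← Finset.mul_sum, key k i, key i i]
  have hnn : 0 ≤ ∑ k, A i k := Finset.sum_nonneg (fun k _ => by
    rcases h01 i k with h | h <;> simp [h])
  show ∑ k, A i k = (c : ℤ)
  nlinarith [sq_nonneg (∑ k, A i k - c), sq_nonneg (∑ k, A i k + c), Int.natCast_nonneg c]

noncomputable def toRows {c : ℕ} (A : Sol c) :
    Fin (c ^ 2) → {S : Finset (Fin (c ^ 2)) // S.card = c} := fun i =>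
  ⟨univ.filter (fun k => A.1 i k = 1), by
    have h := rowSum A i
    have h2 : ∑ k, A.1 i k = ∑ k, (if A.1 i k = 1 then (1 : ℤ) else 0) :=
      Finset.sum_congr rfl (fun k _ => by
        rcases A.2.1 i k with h | h <;> simp [h])
    rw [h2, Finset.sum_boole] at h
    exact_mod_cast h⟩

theorem toRows_inj {c : ℕ} : Function.Injective (toRows (c := c)) := by
  intro A B h
  apply Subtype.ext
  funext i j
  have h1 := congrArg Subtype.val (congrFun h i)
  simp only [toRows] at h1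
  have h2 : (A.1 i j = 1) ↔ (B.1 i j = 1) := by
    have := congrArg (fun S : Finset (Fin (c ^ 2)) => j ∈ S) h1
    simpa using this
  rcases A.2.1 i j with ha | ha <;> rcases B.2.1 i j with hb | hb
  · rw [ha, hb]
  · rw [ha, hb] at h2; simp at h2
  · rw [ha, hb] at h2; simp at h2
  · rw [ha, hb]

instance (c : ℕ) : Finite (Sol c) := Finite.of_injective _ (toRows_inj (c := c))

theorem N_le (c : ℕ) : N c ≤ ((c ^ 2).choose c) ^ (c ^ 2) := by
  have h1 : N c ≤ Nat.card (Sol c) :=
    Nat.card_le_card_of_surjective (Quotient.mk (solSetoid c)) Quotient.mk_surjective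
  refine h1.trans ?_
  refine (Nat.card_le_card_of_injective _ (toRows_inj (c := c))).trans ?_
  rw [Nat.card_fun, Nat.card_eq_fintype_card, Nat.card_eq_fintype_card, Fintype.card_fin]
  rw [Fintype.card_finset_len, Fintype.card_fin]

/-! ### Orbits -/

/-- relabelling -/
def act {c : ℕ} (σ : Equiv.Perm (Fin (c ^ 2))) (A : Sol c) : Sol c :=
  ⟨fun i j => A.1 (σ i) (σ j), fun i j => A.2.1 _ _, by
    funext i j
    have h := congrFun (congrFun A.2.2 (σ i)) (σ j)
    simp only [Matrix.mul_apply, Matrix.of_apply] at h ⊢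
    exact (Equiv.sum_comp σ (fun k => A.1 (σ i) k * A.1 k (σ j))).trans h⟩

theorem card_sol_le (c : ℕ) : Nat.card (Sol c) ≤ N c * (c ^ 2).factorial := by
  have hs : Function.Surjective
      (fun p : Quotient (solSetoid c) × Equiv.Perm (Fin (c ^ 2)) => act p.2 p.1.out) := by
    intro B
    have h : (solSetoid c).r (Quotient.mk (solSetoid c) B).out B :=
      Quotient.exact (Quotient.out_eq (Quotient.mk (solSetoid c) B))
    obtain ⟨σ, hσ⟩ := h
    refine ⟨(Quotient.mk (solSetoid c) B, σ), ?_⟩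
    apply Subtype.ext
    funext i j
    exact (hσ i j).symm
  have := Nat.card_le_card_of_surjective _ hs
  rw [Nat.card_prod] at this
  refine this.trans (le_of_eq ?_)
  rw [N, Nat.card_eq_fintype_card (α := Equiv.Perm (Fin (c ^ 2))), Fintype.card_perm,
    Fintype.card_fin]

/-! ### The construction -/

/-- a family of permutations gives a solution -/
noncomputable def mat {I : Type} [Fintype I] [DecidableEq I] (π : I → I → Equiv.Perm I) :
    Matrix (I × I) (I × I) ℤ :=
  fun x y => if π x.1 y.2 x.2 = y.1 then 1 else 0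

theorem mat_sq {I : Type} [Fintype I] [DecidableEq I] (π : I → I → Equiv.Perm I)
    (h : ∀ x a j b, π (π x a j) b a = π j b a) :
    mat π * mat π = Matrix.of (fun _ _ => (1 : ℤ)) := by
  funext ⟨x, j⟩ ⟨w, b⟩
  rw [Matrix.mul_apply, Fintype.sum_prod_type_right]
  simp only [mat, Matrix.of_apply]
  have : ∀ a : I, ∑ y : I, (if π x a j = y then (1 : ℤ) else 0) *
      (if π y b a = w then (1 : ℤ) else 0) = if a = (π j b).symm w then 1 else 0 := by
    intro a
    rw [Finset.sum_eq_single (π x a j)]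
    · rw [if_pos rfl, one_mul, h]
      simp only [Equiv.eq_symm_apply]
    · intro y _ hy
      rw [if_neg (Ne.symm hy), zero_mul]
    · simp
  simp only [this]
  simp

/-- index set with `g` groups of size `m` and `r` further elements -/
abbrev I (g m r : ℕ) : Type := (Fin g × Fin m) ⊕ Fin r

/-- level of an index -/
def lev {g m r : ℕ} : I g m r → ℕ
  | Sum.inl p => p.1.1 + 1
  | Sum.inr _ => 0

/-- the free choices -/
abbrev T (g m r : ℕ) : Type :=
  {p : (I g m r × I g m r) × Fin g // lev p.1.2 ≤ p.2.1 ∧ lev p.1.1 ≤ p.2.1 + 1}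

/-- the permutations -/
noncomputable def perm {g m r : ℕ} (ρ : T g m r → Equiv.Perm (Fin m)) (x a : I g m r) :
    Equiv.Perm (I g m r) :=
  Equiv.sumCongr (Equiv.prodShear (Equiv.refl (Fin g))
    (fun t => if h : lev a ≤ t.1 ∧ lev x ≤ t.1 + 1 then ρ ⟨((x, a), t), h⟩ else 1))
    (Equiv.refl (Fin r))

theorem perm_cond {g m r : ℕ} (ρ : T g m r → Equiv.Perm (Fin m)) :
    ∀ x a j b, perm ρ (perm ρ x a j) b a = perm ρ j b a := by
  intro x a j b
  rcases j with ⟨t, i⟩ | j
  · by_cases h : lev a ≤ t.1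
    · have fix : ∀ i', perm ρ (Sum.inl (t, i')) b a = a := by
        intro i'
        rcases a with ⟨s, k⟩ | a
        · have hn : ¬ (lev b ≤ s.1 ∧ lev (Sum.inl (t, i') : I g m r) ≤ s.1 + 1) := by
            simp only [lev] at h ⊢
            omega
          simp [perm, hn]
        · rfl
      have h2 : ∃ i', perm ρ x a (Sum.inl (t, i)) = Sum.inl (t, i') := ⟨_, rfl⟩
      obtain ⟨i', h2⟩ := h2
      rw [h2, fix, fix]
    · have h3 : perm ρ x a (Sum.inl (t, i)) = Sum.inl (t, i) := by simp [perm, h]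
      rw [h3]
  · rfl

theorem card_T (g m r : ℕ) :
    m ^ 2 * ∑ t ∈ range g, t * (t + 1) ≤ Fintype.card (T g m r) := by
  let f : (Σ t : Fin g, (Fin t.1 × Fin m) × (Fin (t.1 + 1) × Fin m)) → T g m r := fun p =>
    ⟨((Sum.inl (⟨p.2.2.1.1, by have := p.2.2.1.2; have := p.1.2; omega⟩, p.2.2.2),
      Sum.inl (⟨p.2.1.1.1, by have := p.2.1.1.2; have := p.1.2; omega⟩, p.2.1.2)), p.1), by
        have h1 := p.2.2.1.2
        have h2 := p.2.1.1.2
        simp only [lev]
        omega⟩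
  have hf : Function.Injective f := by
    rintro ⟨t, ⟨s, i⟩, ⟨u, k⟩⟩ ⟨t', ⟨s', i'⟩, ⟨u', k'⟩⟩ h
    simp only [f, Subtype.mk.injEq, Prod.mk.injEq, Sum.inl.injEq, Fin.mk.injEq] at h
    obtain ⟨⟨⟨h1, h2⟩, h3, h4⟩, h5⟩ := h
    subst h5
    have h1' : u = u' := Fin.ext h1
    have h3' : s = s' := Fin.ext h3
    subst h1' h3' h2 h4
    rfl
  have h := Fintype.card_le_of_injective f hf
  rw [Fintype.card_sigma] at h
  refine le_trans (le_of_eq ?_) h
  simp only [Fintype.card_prod, Fintype.card_fin]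
  rw [Fin.sum_univ_eq_sum_range (fun t => t * m * ((t + 1) * m)) g, Finset.mul_sum]
  exact Finset.sum_congr rfl (fun t _ => by ring)

theorem lower (g m r : ℕ) :
    (m.factorial) ^ (Fintype.card (T g m r)) ≤ Nat.card (Sol (g * m + r)) := by
  have hc : Fintype.card (I g m r × I g m r) = Fintype.card (Fin ((g * m + r) ^ 2)) := by
    simp only [Fintype.card_prod, Fintype.card_sum, Fintype.card_fin]
    ring
  let e : (I g m r × I g m r) ≃ Fin ((g * m + r) ^ 2) := Fintype.equivOfCardEq hc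
  let F : (T g m r → Equiv.Perm (Fin m)) → Sol (g * m + r) := fun ρ =>
    ⟨fun i j => mat (perm ρ) (e.symm i) (e.symm j), fun i j => by
      simp only [mat]
      split_ifs <;> simp, by
      funext i j
      have h := congrFun (congrFun (mat_sq (perm ρ) (perm_cond ρ)) (e.symm i)) (e.symm j)
      simp only [Matrix.mul_apply, Matrix.of_apply] at h ⊢
      exact (Equiv.sum_comp e.symm
        (fun k => mat (perm ρ) (e.symm i) k * mat (perm ρ) k (e.symm j))).trans h⟩
  have hF : Function.Injective F := by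
    intro ρ ρ' h
    have h1 : ∀ p q, mat (perm ρ) p q = mat (perm ρ') p q := by
      intro p q
      have h2 := congrArg Subtype.val h
      have h3 := congrFun (congrFun h2 (e p)) (e q)
      simpa [F] using h3
    funext ⟨⟨⟨x, a⟩, t⟩, hp⟩
    apply Equiv.ext
    intro i
    have h2 := h1 (x, Sum.inl (t, i)) (perm ρ x a (Sum.inl (t, i)), a)
    simp only [mat, if_true] at h2
    have h3 : perm ρ' x a (Sum.inl (t, i)) = perm ρ x a (Sum.inl (t, i)) := by
      by_contra hne
      rw [if_neg hne] at h2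
      exact one_ne_zero h2
    simp only [perm, Equiv.sumCongr_apply, Sum.map_inl, Sum.inl.injEq] at h3
    have h4 := congrArg Prod.snd h3
    simp only [Equiv.prodShear_apply, dif_pos hp] at h4
    exact h4.symm
  have h := Nat.card_le_card_of_injective F hF
  rw [Nat.card_fun] at h
  rw [Nat.card_eq_fintype_card (α := Equiv.Perm (Fin m)), Fintype.card_perm, Fintype.card_fin,
    Nat.card_eq_fintype_card] at h
  exact h

/-! ### Asymptotics -/

theorem log_factorial_ge (m : ℕ) : (m : ℝ) * Real.log m - m ≤ Real.log (m.factorial : ℝ) := by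
  rcases Nat.eq_zero_or_pos m with rfl | hm
  · simp
  have hm' : (0 : ℝ) < m := by exact_mod_cast hm
  have hf : (0 : ℝ) < (m.factorial : ℝ) := by exact_mod_cast m.factorial_pos
  have h := Real.pow_div_factorial_le_exp (m : ℝ) hm'.le m
  have h2 := Real.log_le_log (by positivity) h
  rw [Real.log_exp, Real.log_div (by positivity) hf.ne', Real.log_pow] at h2
  linarith

theorem N_pos (c : ℕ) : 0 < N c := by
  have h1 := lower 0 0 c
  have h2 := card_sol_le c
  simp only [Nat.factorial_zero, one_pow, zero_mul, zero_add] at h1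
  by_contra h
  have h0 : N c = 0 := by omega
  rw [h0] at h2
  omega

theorem upper_log (c : ℕ) (hc : 1 ≤ c) :
    Real.log (N c : ℝ) ≤ (c : ℝ) ^ 3 * Real.log c + (c : ℝ) ^ 3 := by
  have hc' : (0 : ℝ) < c := by exact_mod_cast hc
  have hch : 0 < (c ^ 2).choose c := Nat.choose_pos (by nlinarith)
  have hch' : (0 : ℝ) < ((c ^ 2).choose c : ℝ) := by exact_mod_cast hch
  have h1 : Real.log (N c : ℝ) ≤ (c : ℝ) ^ 2 * Real.log ((c ^ 2).choose c : ℝ) := by
    have h : (N c : ℝ) ≤ ((c ^ 2).choose c : ℝ) ^ (c ^ 2) := by exact_mod_cast N_le c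
    have h2 := Real.log_le_log (by exact_mod_cast N_pos c) h
    rw [Real.log_pow] at h2
    push_cast at h2
    exact h2
  have h2 : Real.log ((c ^ 2).choose c : ℝ) ≤ c * Real.log c + c := by
    have h : (((c ^ 2).choose c : ℕ) : ℝ) ≤ (((c ^ 2 : ℕ) : ℝ)) ^ c / (c.factorial : ℝ) :=
      Nat.choose_le_pow_div c (c ^ 2)
    have hf : (0 : ℝ) < (c.factorial : ℝ) := by exact_mod_cast c.factorial_pos
    have h3 := Real.log_le_log hch' h
    rw [Real.log_div (by positivity) hf.ne', Real.log_pow] at h3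
    push_cast at h3
    rw [Real.log_pow] at h3
    have h4 := log_factorial_ge c
    push_cast at h3
    linarith
  calc Real.log (N c : ℝ) ≤ (c : ℝ) ^ 2 * Real.log ((c ^ 2).choose c : ℝ) := h1
    _ ≤ (c : ℝ) ^ 2 * (c * Real.log c + c) := mul_le_mul_of_nonneg_left h2 (by positivity)
    _ = _ := by ring

theorem sum_eq (g : ℕ) : (3 : ℝ) * ((∑ t ∈ range g, t * (t + 1) : ℕ) : ℝ) = (g : ℝ) ^ 3 - g := by
  induction g with
  | zero => simp
  | succ g ih =>
    rw [Finset.sum_range_succ]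
    push_cast at ih ⊢
    rw [mul_add, ih]
    ring

theorem lower_log (c g : ℕ) (hg : 1 ≤ g) (hc : 2 * g ≤ c)
    (hK : Real.log (2 * g) + 1 ≤ Real.log c) :
    ((1 - 1 / (g : ℝ) ^ 2) / 3 * (1 - g / (c : ℝ)) ^ 3 * (1 - (Real.log (2 * g) + 1) / Real.log c)
      - 2 / (c : ℝ)) * ((c : ℝ) ^ 3 * Real.log c) ≤ Real.log (N c : ℝ) := by
  set m := c / g with hm
  set r := c % g with hr
  have hcm : g * m + r = c := Nat.div_add_mod c g
  have hrg : r < g := Nat.mod_lt _ (by omega)
  have hg' : (1 : ℝ) ≤ g := by exact_mod_cast hg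
  have hcR : (2 : ℝ) * g ≤ c := by exact_mod_cast hc
  have hcR' : (g : ℝ) * m + r = c := by exact_mod_cast hcm
  have hrR : (r : ℝ) ≤ g := by exact_mod_cast hrg.le
  have hc0 : (0 : ℝ) < c := by linarith
  have hg0 : (0 : ℝ) < g := by linarith
  have hL1 : 0 ≤ Real.log (2 * g) := Real.log_nonneg (by linarith)
  have hL : 0 < Real.log c := by linarith
  -- m is large
  have hmR : (c : ℝ) / g * (1 - g / c) ≤ m := by
    have : (c : ℝ) / g * (1 - g / c) = (c - g) / g := by field_simp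
    rw [this, div_le_iff₀ hg0]
    nlinarith
  have hq : 0 ≤ 1 - (g : ℝ) / c := by
    rw [sub_nonneg, div_le_one hc0]; linarith
  have hmR2 : (c : ℝ) / (2 * g) ≤ m := by
    rw [div_le_iff₀ (by positivity)]
    nlinarith
  have hm0 : (0 : ℝ) < m := lt_of_lt_of_le (by positivity) hmR2
  have hlogm : Real.log c - (Real.log (2 * g) + 1) ≤ Real.log m - 1 := by
    have h := Real.log_le_log (by positivity) hmR2
    rw [Real.log_div hc0.ne' (by positivity)] at h
    linarith
  -- main inequality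
  have h1 := lower g m r
  rw [hcm] at h1
  have h2 := h1.trans (card_sol_le c)
  have hfm : (1 : ℝ) ≤ (m.factorial : ℝ) := by exact_mod_cast m.factorial_pos
  have hN : (0 : ℝ) < N c := by exact_mod_cast N_pos c
  have hfc : (0 : ℝ) < ((c ^ 2).factorial : ℝ) := by exact_mod_cast (c ^ 2).factorial_pos
  have h3 : (Fintype.card (T g m r) : ℝ) * Real.log (m.factorial : ℝ) ≤
      Real.log (N c : ℝ) + Real.log ((c ^ 2).factorial : ℝ) := by
    have h : ((m.factorial : ℝ)) ^ (Fintype.card (T g m r)) ≤ (N c : ℝ) * ((c ^ 2).factorial : ℝ) := by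
      exact_mod_cast h2
    have h' := Real.log_le_log (by positivity) h
    rwa [Real.log_pow, Real.log_mul hN.ne' hfc.ne'] at h'
  have h4 : Real.log ((c ^ 2).factorial : ℝ) ≤ 2 * (c : ℝ) ^ 2 * Real.log c := by
    have h : ((c ^ 2).factorial : ℝ) ≤ ((c : ℝ) ^ 2) ^ (c ^ 2) := by
      exact_mod_cast Nat.factorial_le_pow (c ^ 2)
    have h' := Real.log_le_log hfc h
    rw [Real.log_pow, Real.log_pow] at h'
    push_cast at h'
    linarith
  have hS := sum_eq g
  set S : ℕ := ∑ t ∈ range g, t * (t + 1) with hSdef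
  have h5 : (m : ℝ) ^ 2 * S ≤ (Fintype.card (T g m r) : ℝ) := by
    exact_mod_cast card_T g m r
  have hlf : 0 ≤ Real.log (m.factorial : ℝ) := Real.log_nonneg hfm
  have h6 : (m : ℝ) ^ 2 * S * ((m : ℝ) * (Real.log c - (Real.log (2 * g) + 1))) ≤
      (Fintype.card (T g m r) : ℝ) * Real.log (m.factorial : ℝ) := by
    refine le_trans ?_ (mul_le_mul_of_nonneg_right h5 hlf)
    refine mul_le_mul_of_nonneg_left ?_ (by positivity)
    refine le_trans ?_ (log_factorial_ge m)
    nlinarith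
  have h7 : ((c : ℝ) / g * (1 - g / c)) ^ 3 ≤ (m : ℝ) ^ 3 := by
    refine pow_le_pow_left₀ (by positivity) hmR 3
  have hX : 0 ≤ (S : ℝ) * (Real.log c - (Real.log (2 * g) + 1)) := by
    have : 0 ≤ Real.log c - (Real.log (2 * g) + 1) := by linarith
    positivity
  have h8 := mul_le_mul_of_nonneg_right h7 hX
  have hSeq : (S : ℝ) = (g : ℝ) ^ 3 * ((1 - 1 / (g : ℝ) ^ 2) / 3) := by
    field_simp
    linarith
  have h9 : ((c : ℝ) / g * (1 - g / c)) ^ 3 * ((S : ℝ) * (Real.log c - (Real.log (2 * g) + 1))) =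
      (1 - 1 / (g : ℝ) ^ 2) / 3 * (1 - g / (c : ℝ)) ^ 3 *
        (1 - (Real.log (2 * g) + 1) / Real.log c) * ((c : ℝ) ^ 3 * Real.log c) := by
    rw [hSeq]
    have hgne := hg0.ne'
    have hcne := hc0.ne'
    have hLne := hL.ne'
    have e1 : (1 - (Real.log (2 * g) + 1) / Real.log c) * Real.log c =
        Real.log c - (Real.log (2 * g) + 1) := by
      field_simp
    have e2 : ((c : ℝ) / g * (1 - g / c)) ^ 3 * (g : ℝ) ^ 3 = (c : ℝ) ^ 3 * (1 - g / c) ^ 3 := by
      rw [← mul_pow, ← mul_pow]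
      congr 1
      field_simp
    calc _ = (((c : ℝ) / g * (1 - g / c)) ^ 3 * (g : ℝ) ^ 3) * ((1 - 1 / (g : ℝ) ^ 2) / 3) *
          (Real.log c - (Real.log (2 * g) + 1)) := by ring
      _ = _ := by rw [e2, ← e1]; ring
  have h10 : 2 / (c : ℝ) * ((c : ℝ) ^ 3 * Real.log c) = 2 * (c : ℝ) ^ 2 * Real.log c := by
    field_simp
  rw [sub_mul, ← h9, h10]
  have h11 : (m : ℝ) ^ 2 * S * ((m : ℝ) * (Real.log c - (Real.log (2 * g) + 1))) =
    (m : ℝ) ^ 3 * ((S : ℝ) * (Real.log c - (Real.log (2 * g) + 1))) := by ring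
  rw [h11] at h6
  linarith

theorem lower_eventually (ε : ℝ) (hε : 0 < ε) :
    ∀ᶠ c : ℕ in Filter.atTop,
      (1 / 3 - ε) * ((c : ℝ) ^ 3 * Real.log c) ≤ Real.log (N c : ℝ) := by
  obtain ⟨n, hn⟩ := exists_nat_one_div_lt hε
  set g : ℕ := n + 1 with hgdef
  have hg : 1 ≤ g := by omega
  have hgR : (1 : ℝ) ≤ g := by exact_mod_cast hg
  have hlog : Filter.Tendsto (fun c : ℕ => Real.log (c : ℝ)) Filter.atTop Filter.atTop :=
    Real.tendsto_log_atTop.comp tendsto_natCast_atTop_atTop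
  have t1 : Filter.Tendsto (fun c : ℕ => (g : ℝ) / (c : ℝ)) Filter.atTop (nhds 0) :=
    tendsto_natCast_atTop_atTop.const_div_atTop _
  have t2 : Filter.Tendsto (fun c : ℕ => (2 : ℝ) / (c : ℝ)) Filter.atTop (nhds 0) :=
    tendsto_natCast_atTop_atTop.const_div_atTop _
  have t3 : Filter.Tendsto (fun c : ℕ => (Real.log (2 * g) + 1) / Real.log (c : ℝ)) Filter.atTop
      (nhds 0) := hlog.const_div_atTop _
  have t4 : Filter.Tendsto (fun c : ℕ => (1 - 1 / (g : ℝ) ^ 2) / 3 * (1 - g / (c : ℝ)) ^ 3 *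
      (1 - (Real.log (2 * g) + 1) / Real.log c) - 2 / (c : ℝ)) Filter.atTop
      (nhds ((1 - 1 / (g : ℝ) ^ 2) / 3 * (1 - 0) ^ 3 * (1 - 0) - 0)) :=
    (((tendsto_const_nhds.mul ((tendsto_const_nhds.sub t1).pow 3)).mul
      (tendsto_const_nhds.sub t3)).sub t2)
  have hlt : 1 / 3 - ε < (1 - 1 / (g : ℝ) ^ 2) / 3 * (1 - 0) ^ 3 * (1 - 0) - 0 := by
    have h1 : 1 / (g : ℝ) ^ 2 ≤ 1 / (g : ℝ) := by
      apply one_div_le_one_div_of_le (by linarith)
      nlinarith
    have h2 : 1 / (g : ℝ) < ε := by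
      rw [hgdef]; push_cast; exact hn
    have h3 : 0 < 1 / (g : ℝ) ^ 2 := by positivity
    nlinarith
  have e1 := t4.eventually_const_lt hlt
  have e2 := hlog.eventually_ge_atTop (Real.log (2 * g) + 1)
  filter_upwards [e1, e2, Filter.eventually_ge_atTop (2 * g)] with c h1 h2 h3
  refine le_trans ?_ (lower_log c g hg h3 h2)
  refine mul_le_mul_of_nonneg_right h1.le ?_
  have : 0 ≤ Real.log c := by
    have := Real.log_nonneg (show (1 : ℝ) ≤ 2 * g by linarith)
    linarith
  positivity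

theorem upper_eventually (ε : ℝ) (hε : 0 < ε) :
    ∀ᶠ c : ℕ in Filter.atTop,
      Real.log (N c : ℝ) ≤ (1 + ε) * ((c : ℝ) ^ 3 * Real.log c) := by
  have hlog : Filter.Tendsto (fun c : ℕ => Real.log (c : ℝ)) Filter.atTop Filter.atTop :=
    Real.tendsto_log_atTop.comp tendsto_natCast_atTop_atTop
  filter_upwards [hlog.eventually_ge_atTop (1 / ε), Filter.eventually_ge_atTop 1] with c h1 h2
  have h3 := upper_log c h2
  have h4 : 1 ≤ ε * Real.log c := by
    rw [div_le_iff₀ hε] at h1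
    linarith
  have h5 : (0 : ℝ) ≤ (c : ℝ) ^ 3 := by positivity
  nlinarith [mul_le_mul_of_nonneg_left h4 h5]

/-- For every `ε > 0` and all large `c`,
`(1/3 - ε) c ^ 3 log c ≤ log N(c) ≤ (1 + ε) c ^ 3 log c`. -/
theorem result (ε : ℝ) (hε : 0 < ε) :
    ∃ c₀ : ℕ, ∀ c : ℕ, c₀ ≤ c →
      (1 / 3 - ε) * ((c : ℝ) ^ 3 * Real.log c) ≤ Real.log (N c : ℝ) ∧
      Real.log (N c : ℝ) ≤ (1 + ε) * ((c : ℝ) ^ 3 * Real.log c) := by
  have h := (lower_eventually ε hε).and (upper_eventually ε hε)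
  exact Filter.eventually_atTop.1 h

end Pool.Agent.Results.MP_801f88_co.CubicLogGrowth
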